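import Mathlib
import Pool.Agent.H87.NumIdxDef
import Pool.Agent.H87.UltraDef
import Pool.Agent.H87.UltraIdx2

namespace Pool.Agent.Results.MP_6da9ed_an.No

open Pool.Agent.H87 Filter Topology

/-- There is a real Banach space of numerical index at least one quarter all of whose ultrapowers
along free ultrafilters on the natural numbers have numerical index zero; the norm of the
ultrapower is the limit of the norms along the ultrafilter. -/
theorem result : ∃ (X : Type) (_ : NormedAddCommGroup X) (_ : NormedSpace ℝ X)
    (_ : CompleteSpace X), 1 / 4 ≤ numIndex X ∧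
    ∀ U : Ultrafilter ℕ, (U : Filter ℕ) ≤ cofinite →
      (∀ x, Tendsto (fun n => ‖x n‖) U
        (𝓝 ‖(Submodule.Quotient.mk x : Ultrapower X U)‖)) ∧
      numIndex (Ultrapower X U) = 0 :=
  ⟨UI.X, inferInstance, inferInstance, inferInstance, UI.index_ge,
    fun U hU => ⟨UI.norm_mk U, UI.index_zero U hU⟩⟩

end Pool.Agent.Results.MP_6da9ed_an.No
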